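import Pool.Agent.J6H55.MA.Stm

/-!
# Module MA-STEP of helper55's project MA: the next level
-/

set_option autoImplicit false

namespace Pool.Agent.J6H85.MAStep

open Pool.Agent.J6H55.MA

theorem cat_append {W : Set (List Bool)} {s t : List Bool} (hs : s ∈ Cat W) (ht : t ∈ Cat W) :
    s ++ t ∈ Cat W := by
  obtain ⟨l, hl, rfl⟩ := hs
  obtain ⟨l', hl', rfl⟩ := ht
  refine ⟨l ++ l', ?_, by simp⟩
  intro v hv
  rcases List.mem_append.mp hv with h | h
  · exact hl v h
  · exact hl' v h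

theorem step (h1 : S_fro) (h2 : S_uu) (h3 : S_grp) : S_step := by
  intro W K M hL D K' hK'
  obtain ⟨F, hF⟩ := h1 W K M hL
  obtain ⟨u, hu, huu⟩ := h2 W K M hL
  obtain ⟨T, hT⟩ : ∃ T, T = 2 * M + F + K' + D * (u.length + F + M) := ⟨_, rfl⟩
  have hTM : 2 * M + F ≤ T := by rw [hT, add_assoc]; exact Nat.le_add_right _ _
  have hTK : K' ≤ T := by
    rw [hT]
    exact le_trans (Nat.le_add_left _ _) (Nat.le_add_right _ _)
  have hTD : D * (u.length + F + M) ≤ T := by rw [hT]; exact Nat.le_add_left _ _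
  have hT1 : 1 ≤ T := le_trans hK' hTK
  have hTF : F ≤ T := le_trans (Nat.le_add_left _ _) hTM
  obtain ⟨W', hW'⟩ : ∃ W' : Set (List Bool),
      W' = {w | ∃ s ∈ Cat W, T ≤ s.length ∧ s.length ≤ 2 * T ∧ w = s ++ u} := ⟨_, rfl⟩
  have hmem : ∀ w, w ∈ W' ↔ ∃ s ∈ Cat W, T ≤ s.length ∧ s.length ≤ 2 * T ∧ w = s ++ u := by
    intro w; rw [hW']; rfl
  have hL' : Lev W' K' (2 * T + u.length) := by
    refine ⟨hK', ?_, ?_, ?_⟩
    · intro v hv
      obtain ⟨s, _, hs1, _, rfl⟩ := (hmem v).mp hv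
      rw [List.length_append]
      omega
    · intro v hv
      obtain ⟨s, _, _, hs2, rfl⟩ := (hmem v).mp hv
      rw [List.length_append]
      omega
    · obtain ⟨s, hs, hsl⟩ := hF T hTF
      obtain ⟨s', hs', hsl'⟩ := hF (T + 1) (by omega)
      refine ⟨s ++ u, (hmem _).mpr ⟨s, hs, by omega, by omega, rfl⟩, s' ++ u,
        (hmem _).mpr ⟨s', hs', by omega, by omega, rfl⟩, ?_⟩
      rw [List.length_append, List.length_append, hsl, hsl']
      omega
  obtain ⟨F', hF'⟩ := h1 W' K' _ hL'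
  obtain ⟨C, hC⟩ := h3 W K M hL F hF u hu T hTM W' hW' F' hF'
  refine ⟨W', 2 * T + u.length, C, hL', ?_, ?_, ?_⟩
  · intro w hw
    obtain ⟨s, hs, _, _, rfl⟩ := (hmem w).mp hw
    exact cat_append hs hu
  · intro w hw v hv v' hv'
    obtain ⟨s, hs, _, _, rfl⟩ := (hmem w).mp hw
    exact (huu v hv v' hv').trans (List.suffix_append s u).isInfix
  · intro x P hP hx
    obtain ⟨x', hx', hi, hN⟩ := hC x P hP hx
    refine ⟨x', hx', fun i hi' => hi i (lt_of_lt_of_le hi' hTK), fun N hNP => ?_⟩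
    have h4 := hN N hNP
    rcases Nat.eq_zero_or_pos (u.length + F + M) with hU | hU
    · rw [hU, zero_mul] at h4
      have h5 : mis x x' N = 0 := by
        rcases Nat.eq_zero_or_pos (mis x x' N) with h | h
        · exact h
        · exact absurd h4 (not_le.mpr (Nat.mul_pos hT1 h))
      rw [h5, mul_zero]
      exact Nat.zero_le _
    · refine Nat.le_of_mul_le_mul_left ?_ hU
      calc (u.length + F + M) * (D * mis x x' N) = D * (u.length + F + M) * mis x x' N := by ring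
        _ ≤ T * mis x x' N := Nat.mul_le_mul_right _ hTD
        _ ≤ (u.length + F + M) * N := h4

end Pool.Agent.J6H85.MAStep
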